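import Pool.Agent.Helper90.TS.Stmts

set_option autoImplicit false

namespace Pool.Agent.Helper90.TS

theorem st_LPP (h1 : ST_LP) (h2 : ST_UNID) (h3 : ST_FSUP) (h4 : ST_ACLB) (h5 : ST_RKB) :
    ST_LPP := by
  intro V G _ _ X d hd A hA ι _ b
  have hAc : A.Countable := hA.countable
  obtain ⟨a1, a2, -, -, -, -, -⟩ := h4 V G X A hAc
  have hdc : (Set.range d).Countable := Set.countable_range d
  have hCc : (acl G A ∪ Set.range d).Countable := a2.union hdc
  obtain ⟨D, hD, hbD, -, hu⟩ := h2 V G X (acl G A ∪ Set.range d) hCc ι b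
  obtain ⟨m, a, E, ha, hE, hDE⟩ := h3 V G X _ hCc ι D hD
  have hb : ∀ i : Fin m, ∃ n, a i ∈ acl G A ∨ a i ∈ ini d n := by
    intro i
    rcases ha ⟨i, rfl⟩ with h | ⟨j, hj⟩
    · exact ⟨0, Or.inl h⟩
    · exact ⟨j + 1, Or.inr ⟨j, Nat.lt_succ_self j, hj⟩⟩
  choose nn hnn using hb
  obtain ⟨n1, hn1⟩ : ∃ n1, ∀ i, nn i ≤ n1 :=
    ⟨Finset.univ.sup nn, fun i => Finset.le_sup (Finset.mem_univ i)⟩
  obtain ⟨n2, hn2⟩ := h1 V G X d hd A hA ι b
  refine ⟨max n1 n2, Set.range a ∩ acl G A, Set.inter_subset_right,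
    (Set.finite_range a).subset Set.inter_subset_left, ?_⟩
  intro b' hbb
  set B : Set V := A ∪ (Set.range a ∩ acl G A) ∪ ini d (max n1 n2) with hB
  have haB : Set.range a ⊆ B := by
    rintro _ ⟨i, rfl⟩
    rcases hnn i with h | h
    · exact Or.inl (Or.inr ⟨⟨i, rfl⟩, h⟩)
    · exact Or.inr (ini_mono (le_trans (hn1 i) (le_max_left _ _)) h)
  have hDB : X.Ov B D := by
    rw [hDE]
    exact ov_sec' (ov_mono X (Set.empty_subset _) hE) haB
  have hb'D : b' ∈ D := by
    obtain ⟨g, hg, rfl⟩ := hbb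
    exact hDB.2 g hg b hbD
  have hbb2 : Eqv G (A ∪ Set.range d) b b' := by
    apply hn2 b'
    refine eqv_mono ?_ hbb
    rintro x (hx | hx)
    · exact Or.inl (Or.inl hx)
    · exact Or.inr (ini_mono (le_max_right _ _) hx)
  have hA'c : (A ∪ Set.range d).Countable := hAc.union hdc
  obtain ⟨-, -, -, -, -, c6, -⟩ := h4 V G X (A ∪ Set.range d) hA'c
  have hsub : acl G A ⊆ acl G (A ∪ Set.range d) := by
    obtain ⟨-, -, a3, -, -, -, -⟩ := h4 V G X A hAc
    exact a3 _ Set.subset_union_left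
  have hset : (A ∪ Set.range d) ∪ acl G A = acl G A ∪ Set.range d := by
    ext x
    constructor
    · rintro ((h | h) | h)
      · exact Or.inl (a1 h)
      · exact Or.inr h
      · exact Or.inl h
    · rintro (h | h)
      · exact Or.inr h
      · exact Or.inl (Or.inr h)
  have hrk : ∀ y : ι → V, X.rk (acl G A ∪ Set.range d) y = X.rk (A ∪ Set.range d) y := by
    intro y
    rw [← hset]
    exact c6 _ ι y hsub
  apply hu b' hb'D
  rw [hrk b', hrk b]
  exact (h5 V G X ι b).2.2.2.2.2 _ b' hbb2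

end Pool.Agent.Helper90.TS
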